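import Pool.Agent.H17.SD.Targets

/-! PRE: a primitive element which is a linear form. -/

open MvPolynomial SC Pool.Agent.H27.LV
open Pool.Agent.H92.SF Pool.Agent.H3.SF Pool.Agent.H17.SD

namespace Pool.Agent.H63.SFG

theorem pf_PRE : T_PRE := by
  intro k F σ _ _ _ _ _ L hfin X hX
  classical
  have hinf : Infinite k := CharZero.infinite k
  have hchar : CharZero L := charZero_of_injective_algebraMap (algebraMap k L).injective
  have hfi : Finite (IntermediateField L F) :=
    Field.finite_intermediateField_of_exists_primitive_element L F
      (Field.exists_primitive_element L F)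
  have hsm : ∀ (E : IntermediateField L F) (c : k) (x : F), x ∈ E → c • x ∈ E := by
    intro E c x hx
    have h1 : c • x = (algebraMap k L c : L) • x := by
      rw [Algebra.smul_def, Algebra.smul_def]
      rfl
    rw [h1]
    exact E.smul_mem hx
  have key : ∀ T : Finset σ, ∃ θ ∈ Submodule.span k (Set.range X),
      ∀ s ∈ T, X s ∈ IntermediateField.adjoin L {θ} := by
    intro T
    induction T using Finset.induction with
    | empty => exact ⟨0, Submodule.zero_mem _, fun s hs => absurd hs (Finset.notMem_empty s)⟩
    | insert a T _ ih =>
      obtain ⟨α, hα, hT⟩ := ih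
      have hni := not_injective_infinite_finite
        (fun c : k => IntermediateField.adjoin L {α + c • X a})
      rw [Function.Injective] at hni
      push Not at hni
      obtain ⟨c, c', hcc, hne⟩ := hni
      have hcc' : IntermediateField.adjoin L {α + c • X a} =
        IntermediateField.adjoin L {α + c' • X a} := hcc
      set E := IntermediateField.adjoin L {α + c • X a} with hE
      have h1 : α + c • X a ∈ E := IntermediateField.mem_adjoin_simple_self L _
      have h2 : α + c' • X a ∈ E := by
        rw [hcc']; exact IntermediateField.mem_adjoin_simple_self L _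
      have h3 : (c - c') • X a ∈ E := by
        have h4 := E.sub_mem h1 h2
        have h5 : α + c • X a - (α + c' • X a) = (c - c') • X a := by
          rw [sub_smul]; ring
        rwa [h5] at h4
      have hβ : X a ∈ E := by
        have h4 := hsm E (c - c')⁻¹ _ h3
        rwa [smul_smul, inv_mul_cancel₀ (sub_ne_zero.2 hne), one_smul] at h4
      have hαE : α ∈ E := by
        have h4 := E.sub_mem h1 (hsm E c _ hβ)
        rwa [add_sub_cancel_right] at h4
      refine ⟨α + c • X a, Submodule.add_mem _ hα
        (Submodule.smul_mem _ _ (Submodule.subset_span ⟨a, rfl⟩)), ?_⟩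
      intro s hs
      rcases Finset.mem_insert.1 hs with rfl | hs
      · exact hβ
      · have h6 : IntermediateField.adjoin L {α} ≤ E :=
          IntermediateField.adjoin_simple_le_iff.2 hαE
        exact h6 (hT s hs)
  obtain ⟨θ, hθ, hall⟩ := key Finset.univ
  refine ⟨θ, hθ, ?_⟩
  rw [eq_top_iff, ← hX, IntermediateField.adjoin_le_iff]
  rintro _ ⟨s, rfl⟩
  exact hall s (Finset.mem_univ s)

end Pool.Agent.H63.SFG
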